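import Pool.Agent.H33.HH.TC
import Pool.Agent.H57.HH.IDF
import Pool.Agent.H44.HH.IDC
import Pool.Agent.H96.CV.Basic
import Pool.Agent.H86.CV.DV

/-!
# Row IN1 of hha_modules: the sum over `n` with the limit
-/

set_option autoImplicit false

open NumberField Complex Filter Topology MeasureTheory
open scoped ContDiff nonZeroDivisors

namespace Pool.Agent.H51.HH

open Pool.Agent.H33.HH Pool.Agent.H28.RC Pool.Agent.H37.CV

/-- bounds for the derivatives of `A(v) B(s v)`, uniform in `s` -/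
theorem unif (A B : ℝ → ℝ) (hA : ContDiff ℝ ∞ A) (hB : ContDiff ℝ ∞ B) (b : ℝ) (k : ℕ) :
    ∃ M : ℝ, 0 ≤ M ∧ ∀ s : ℝ, 0 < s → s ≤ 1 → ∀ j ≤ k, ∀ u ∈ Set.Icc 0 b,
      |iteratedDeriv j (fun v => A v * B (s * v)) u| ≤ M := by
  have bd : ∀ F : ℝ → ℝ, ContDiff ℝ ∞ F → ∃ C : ℝ, 0 ≤ C ∧ ∀ j ≤ k, ∀ u ∈ Set.Icc 0 b,
      |iteratedDeriv j F u| ≤ C := by
    intro F hF
    have h1 : ∀ j : ℕ, ∃ C : ℝ, ∀ u ∈ Set.Icc 0 b, |iteratedDeriv j F u| ≤ C := by
      intro j
      have hc : ContinuousOn (iteratedDeriv j F) (Set.Icc 0 b) :=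
        (hF.continuous_iteratedDeriv j (by exact_mod_cast le_top)).continuousOn
      obtain ⟨C, hC⟩ := isCompact_Icc.exists_bound_of_continuousOn hc
      exact ⟨C, fun u hu => hC u hu⟩
    choose C hC using h1
    refine ⟨∑ j ∈ Finset.range (k + 1), |C j|, Finset.sum_nonneg fun _ _ => abs_nonneg _,
      fun j hj u hu => ?_⟩
    exact ((hC j u hu).trans (le_abs_self _)).trans (Finset.single_le_sum (f := fun j => |C j|)
      (fun _ _ => abs_nonneg _) (Finset.mem_range.2 (by omega)))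
  obtain ⟨a, ha0, ha⟩ := bd A hA
  obtain ⟨c, hc0, hc⟩ := bd B hB
  refine ⟨2 ^ k * (a * c), by positivity, ?_⟩
  intro s hs hs1 j hj u hu
  have hBs : ContDiff ℝ ∞ (fun v => B (s * v)) := hB.comp (contDiff_const.mul contDiff_id)
  have hj' : ((j : ℕ∞) : WithTop ℕ∞) ≤ ∞ := by exact_mod_cast le_top
  rw [iteratedDeriv_fun_mul (hA.contDiffAt.of_le hj') (hBs.contDiffAt.of_le hj')]
  refine (Finset.abs_sum_le_sum_abs _ _).trans ?_
  calc ∑ i ∈ Finset.range (j + 1), |(j.choose i : ℝ) * iteratedDeriv i A u *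
        iteratedDeriv (j - i) (fun v => B (s * v)) u|
      ≤ ∑ i ∈ Finset.range (j + 1), (j.choose i : ℝ) * (a * c) := by
        refine Finset.sum_le_sum fun i hi => ?_
        have hi' := Finset.mem_range.1 hi
        rw [abs_mul, abs_mul, Nat.abs_cast, mul_assoc]
        have h1 : |iteratedDeriv (j - i) (fun v => B (s * v)) u| ≤ c := by
          have hj2 : (((j - i : ℕ) : ℕ∞) : WithTop ℕ∞) ≤ ∞ := by exact_mod_cast le_top
          rw [iteratedDeriv_comp_const_mul (hB.of_le hj2) s]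
          simp only
          rw [abs_mul, abs_pow, abs_of_pos hs]
          have h0 := hu.1
          calc s ^ (j - i) * |iteratedDeriv (j - i) B (s * u)| ≤ 1 * c :=
                mul_le_mul (pow_le_one₀ hs.le hs1) (hc (j - i) (by omega) _
                  ⟨by positivity, by nlinarith [hu.1, hu.2]⟩) (abs_nonneg _) zero_le_one
            _ = c := one_mul _
        exact mul_le_mul_of_nonneg_left (mul_le_mul (ha i (by omega) u hu) h1 (abs_nonneg _) ha0)
          (Nat.cast_nonneg _)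
    _ = 2 ^ j * (a * c) := by
        rw [← Finset.sum_mul]
        congr 1
        exact_mod_cast Nat.sum_range_choose j
    _ ≤ 2 ^ k * (a * c) := by
        gcongr
        norm_num

section

variable {K : Type} [Field K] [NumberField K]

open scoped Classical in
theorem sumC_idS (P : ℝ) (g : Finset (PrI K)) (hg : Cp P (idS g)) (F : ℝ → ℝ) :
    sumC (K := K) P (fun n => if idS g ∣ n then F (nm n) else 0) =
      sumC (K := K) P (fun n => F (nS np g * nm n)) := by
  unfold sumC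
  let φ : NI K → NI K := fun l => ⟨idS g * l.1, mul_ne_zero (Pool.Agent.H44.HH.idS_ne g) l.2⟩
  have hφ : Function.Injective φ := by
    intro l l' h
    have h2 : idS g * l.1 = idS g * l'.1 := congrArg Subtype.val h
    exact Subtype.ext (mul_left_cancel₀ (Pool.Agent.H44.HH.idS_ne g) h2)
  rw [← hφ.tsum_eq]
  · refine tsum_congr fun l => ?_
    show (if Cp P (idS g * l.1) then (if idS g ∣ idS g * l.1 then F (nm (idS g * l.1)) else 0)
      else 0) = _
    rw [if_pos (dvd_mul_right _ _), Pool.Agent.H44.HH.nm_idS]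
    have h1 : Cp P (idS g * l.1) ↔ Cp P l.1 := by
      constructor
      · intro h p hp
        exact h p (p.2.1.mul_le.2 (Or.inr hp))
      · intro h p hp
        rcases p.2.1.mul_le.1 hp with h1 | h1
        · exact hg p h1
        · exact h p h1
    simp only [h1]
  · intro I hI
    have h2 : idS g ∣ I.1 := by
      by_contra h
      refine hI ?_
      simp only [if_neg h, ite_self]
    obtain ⟨l, hl⟩ := h2
    refine ⟨⟨l, ?_⟩, Subtype.ext hl.symm⟩
    rintro rfl
    have h3 : I.1 = 0 := by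
      rw [hl]
      exact mul_zero _
    exact I.2 h3

open scoped Classical in
/-- the local factors -/
theorem loc (S T : Finset (PrI K)) (n : Ideal (𝓞 K)) (hT : ∀ p : PrI K, idS T ≤ p.1 ↔ p ∈ T) :
    ∏ p ∈ S, ((if idS T * n ≤ p.1 then (1 : ℝ) else 0) + 1 - 1 / np p) =
      (∏ p ∈ S ∩ T, (2 - 1 / np p)) * ∑ g ∈ (S \ T).powerset,
        (∏ p ∈ (S \ T) \ g, (1 - 1 / np p)) * (if idS g ∣ n then 1 else 0) := by
  have e1 : ∏ p ∈ S ∩ T, ((if idS T * n ≤ p.1 then (1 : ℝ) else 0) + 1 - 1 / np p) =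
      ∏ p ∈ S ∩ T, (2 - 1 / np p) := by
    refine Finset.prod_congr rfl fun p hp => ?_
    rw [if_pos (p.2.1.mul_le.2 (Or.inl ((hT p).2 (Finset.mem_inter.1 hp).2)))]
    ring
  have e2 : ∏ p ∈ S \ T, ((if idS T * n ≤ p.1 then (1 : ℝ) else 0) + 1 - 1 / np p) =
      ∏ p ∈ S \ T, ((if n ≤ p.1 then (1 : ℝ) else 0) + (1 - 1 / np p)) := by
    refine Finset.prod_congr rfl fun p hp => ?_
    have h1 : idS T * n ≤ p.1 ↔ n ≤ p.1 := by
      rw [p.2.1.mul_le, hT p]
      exact or_iff_right (Finset.mem_sdiff.1 hp).2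
    simp only [h1]
    ring
  rw [← Finset.prod_inter_mul_prod_sdiff S T, e1, e2, Finset.prod_add]
  congr 1
  refine Finset.sum_congr rfl fun g _ => ?_
  rw [mul_comm]
  congr 1
  have h3 : idS g ∣ n ↔ ∀ p ∈ g, n ≤ p.1 := by
    rw [Ideal.dvd_iff_le]
    exact Pool.Agent.H44.HH.idS_le g n
  by_cases h : ∀ p ∈ g, n ≤ p.1
  · rw [if_pos (h3.2 h)]
    exact Finset.prod_eq_one fun p hp => if_pos (h p hp)
  · rw [if_neg fun h' => h (h3.1 h')]
    push Not at h
    obtain ⟨p, hp, hX⟩ := h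
    exact Finset.prod_eq_zero hp (if_neg hX)

open scoped Classical in
/-- the densities sum up to one -/
theorem dens (X : Finset (PrI K)) :
    ∑ g ∈ X.powerset, (∏ p ∈ X \ g, (1 - 1 / np p)) * (nS np g)⁻¹ = 1 := by
  have h1 : ∏ p ∈ X, (1 / np p + (1 - 1 / np p)) = 1 := Finset.prod_eq_one fun p _ => by ring
  refine Eq.trans ?_ h1
  rw [Finset.prod_add]
  refine Finset.sum_congr rfl fun g _ => ?_
  rw [mul_comm]
  congr 1
  unfold nS
  rw [← Finset.prod_inv_distrib]
  exact Finset.prod_congr rfl fun p _ => (one_div _).symm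

end

open scoped Classical in
theorem pf_IN1 (h1 : T_IDC) (h2 : T_JIS) (h3 : T_IDF) : T_IN1 := by
  intro K _ _ _ P G H θ e hSP hG hH hp
  obtain ⟨J, hJs, hJ6, hJ⟩ := h2 G H hG hH
  obtain ⟨m, hm⟩ := exists_nat_ge (8 / (9 * e))
  have he := hp.epos
  have hθ := hp.θpos
  have hle := hp.le
  obtain ⟨C0, hC0, hidc⟩ := h1 K P 6 (m + 2) hSP (by omega) (by norm_num)
  obtain ⟨M1, hM1, hu1⟩ := unif G J hG.smooth hJs 6 (m + 2)
  obtain ⟨M2, hM2, hu2⟩ := unif J G hJs hG.smooth 6 (m + 2)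
  obtain ⟨D, hD1, -, hD⟩ := (Pool.Agent.H86.CV.pf_DV K).1 (1 / 2) (by norm_num)
  refine ⟨D ^ 2 * (C0 * (M1 + M2)), 1, by positivity, le_rfl, ?_⟩
  intro Q hQ S hS T hT
  have hQ0 : 0 < Q := by linarith
  have hy : 1 ≤ Q ^ θ := Real.one_le_rpow hQ hθ.le
  obtain ⟨hSne, -, hnmS, hS1, hSy, hpfS, -, -⟩ := h3 K P (Q ^ θ) hy S hS
  obtain ⟨hTne, -, -, hT1, hTy, hpfT, -, -⟩ := h3 K P (Q ^ θ) hy T hT
  obtain ⟨Z, hZd⟩ : ∃ Z : ℝ, Z = Q ^ (1 + e) := ⟨_, rfl⟩
  rw [← hZd]
  have hZ : 0 < Z := by rw [hZd]; exact Real.rpow_pos_of_pos hQ0 _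
  have hy0 : 0 < Q ^ θ := by linarith
  have hS0 : 0 < nS np S := by linarith
  have hT0 : 0 < nS np T := by linarith
  obtain ⟨r, hr⟩ : ∃ r : ℝ, r = nS np T / nS np S := ⟨_, rfl⟩
  have hr0 : 0 < r := by rw [hr]; positivity
  obtain ⟨I0, hI0⟩ : ∃ I0 : ℝ, I0 = ∫ t in Set.Ioi (0 : ℝ), G t * J (r * t) := ⟨_, rfl⟩
  have hI1 : ∫ t in Set.Ioi (0 : ℝ), G t * Ji G H (nS np T / nS np S * t) = I0 := by
    rw [hI0, ← hr]
    refine setIntegral_congr_fun measurableSet_Ioi fun t ht => ?_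
    show G t * Ji G H (r * t) = G t * J (r * t)
    rw [hJ _ (mul_pos hr0 ht)]
  rw [hI1]
  have hlo : 1 ≤ Z / Q ^ θ := by
    rw [hZd, ← Real.rpow_sub hQ0]
    exact Real.one_le_rpow hQ (by linarith)
  have pw : ∀ t : ℝ, Z / Q ^ θ ≤ t → t ^ (1 - ((m + 2 : ℕ) : ℝ) / 2) ≤ Q ^ (-4 : ℝ) := by
    intro t ht
    have h5 : Z / Q ^ θ = Q ^ (1 + e - θ) := by rw [hZd, ← Real.rpow_sub hQ0]
    have h6 : 1 - ((m + 2 : ℕ) : ℝ) / 2 = -((m : ℝ) / 2) := by push_cast; ring
    rw [h6]
    rw [h5] at ht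
    have h7 : 0 < Q ^ (1 + e - θ) := Real.rpow_pos_of_pos hQ0 _
    have h8 : (0 : ℝ) ≤ (m : ℝ) / 2 := by positivity
    calc t ^ (-((m : ℝ) / 2)) ≤ (Q ^ (1 + e - θ)) ^ (-((m : ℝ) / 2)) :=
          Real.rpow_le_rpow_of_nonpos h7 ht (by linarith)
      _ = Q ^ ((1 + e - θ) * (-((m : ℝ) / 2))) := (Real.rpow_mul hQ0.le _ _).symm
      _ ≤ Q ^ (-4 : ℝ) := by
          refine Real.rpow_le_rpow_of_exponent_le hQ ?_
          rw [div_le_iff₀ (by positivity)] at hm
          have h9 : (0 : ℝ) ≤ m := Nat.cast_nonneg m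
          nlinarith
  have key : ∀ g ∈ (S \ T).powerset,
      |sumC (K := K) P (fun n => G (nS np g * nm n / Z) * J (r * (nS np g * nm n) / Z)) -
        rk K P * (Z / nS np g) * I0| ≤ C0 * (M1 + M2) * Q ^ (-4 : ℝ) := by
    intro g hg
    have hgS : g ⊆ S := (Finset.mem_powerset.1 hg).trans Finset.sdiff_subset
    have hg1 : 1 ≤ nS np g := Pool.Agent.H44.HH.nS_one_le g
    have hg0 : 0 < nS np g := by linarith
    have hgS' : nS np g ≤ nS np S := Pool.Agent.H44.HH.nS_mono hgS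
    have hQ4 : 0 < Q ^ (-4 : ℝ) := Real.rpow_pos_of_pos hQ0 _
    rcases le_total r 1 with hr1 | hr1
    · have ht : Z / Q ^ θ ≤ Z / nS np g := by
        have : nS np g ≤ Q ^ θ := hgS'.trans hSy
        gcongr
      have h8 := hidc (fun v => G v * J (r * v)) M1 (Z / nS np g)
        (hG.smooth.mul (hJs.comp (contDiff_const.mul contDiff_id)))
        (fun u hu => by rw [hG.high u (by linarith), zero_mul]) (hu1 r hr0 hr1)
        (hlo.trans ht)
      have h9 : (fun n : Ideal (𝓞 K) => G (nm n / (Z / nS np g)) *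
          J (r * (nm n / (Z / nS np g)))) =
          fun n => G (nS np g * nm n / Z) * J (r * (nS np g * nm n) / Z) := by
        funext n
        congr 2
        · field_simp
        · field_simp
      rw [h9, ← hI0] at h8
      refine h8.trans ?_
      have h10 := pw _ ht
      calc C0 * M1 * (Z / nS np g) ^ (1 - ((m + 2 : ℕ) : ℝ) / 2) ≤ C0 * M1 * Q ^ (-4 : ℝ) := by
            gcongr
        _ ≤ C0 * (M1 + M2) * Q ^ (-4 : ℝ) := by
            gcongr
            linarith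
    · have hgr : nS np g * r ≤ Q ^ θ := by
        refine le_trans ?_ hTy
        rw [hr, mul_div_assoc', div_le_iff₀ hS0]
        nlinarith
      have ht : Z / Q ^ θ ≤ Z / (nS np g * r) := by gcongr
      have hri : 0 < r⁻¹ := by positivity
      have hri1 : r⁻¹ ≤ 1 := inv_le_one_of_one_le₀ hr1
      have h8 := hidc (fun v => J v * G (r⁻¹ * v)) M2 (Z / (nS np g * r))
        (hJs.mul (hG.smooth.comp (contDiff_const.mul contDiff_id)))
        (fun u hu => by rw [hJ6 u hu, zero_mul]) (hu2 r⁻¹ hri hri1)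
        (hlo.trans ht)
      have h9 : (fun n : Ideal (𝓞 K) => J (nm n / (Z / (nS np g * r))) *
          G (r⁻¹ * (nm n / (Z / (nS np g * r))))) =
          fun n => G (nS np g * nm n / Z) * J (r * (nS np g * nm n) / Z) := by
        funext n
        rw [mul_comm]
        congr 2
        · field_simp
        · field_simp
      have h11 : ∫ v in Set.Ioi (0 : ℝ), J v * G (r⁻¹ * v) = r * I0 := by
        have h12 := integral_comp_mul_left_Ioi (fun v => J v * G (r⁻¹ * v)) 0 hr0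
        rw [mul_zero] at h12
        have h13 : ∫ x in Set.Ioi (0 : ℝ), J (r * x) * G (r⁻¹ * (r * x)) = I0 := by
          rw [hI0]
          refine integral_congr_ae (Filter.Eventually.of_forall fun x => ?_)
          simp only
          rw [inv_mul_cancel_left₀ hr0.ne', mul_comm]
        rw [h13, smul_eq_mul] at h12
        rw [h12]
        field_simp
      rw [h9, h11] at h8
      have h14 : rk K P * (Z / (nS np g * r)) * (r * I0) = rk K P * (Z / nS np g) * I0 := by
        field_simp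
      rw [h14] at h8
      refine h8.trans ?_
      have h10 := pw _ ht
      calc C0 * M2 * (Z / (nS np g * r)) ^ (1 - ((m + 2 : ℕ) : ℝ) / 2) ≤
            C0 * M2 * Q ^ (-4 : ℝ) := by
            gcongr
        _ ≤ C0 * (M1 + M2) * Q ^ (-4 : ℝ) := by
            gcongr
            linarith
  -- the expansion
  have hTm : ∀ p : PrI K, idS T ≤ p.1 ↔ p ∈ T := by
    intro p
    rw [← Pool.Agent.H3.CV.mem_pf hTne p, hpfT]
  obtain ⟨c1, hc1⟩ : ∃ c1 : ℝ, c1 = ∏ p ∈ S ∩ T, (2 - 1 / np p) := ⟨_, rfl⟩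
  obtain ⟨cg, hcg⟩ : ∃ cg : Finset (PrI K) → ℝ, cg = fun g => ∏ p ∈ (S \ T) \ g, (1 - 1 / np p) :=
    ⟨_, rfl⟩
  have hsum : sumC (K := K) P (fun n => G (nm n / Z) *
      Ji G H (nS np T * nm n / (nS np S * Z)) *
      ∏ p ∈ S, ((if idS T * n ≤ p.1 then 1 else 0) + 1 - 1 / np p)) =
      ∑ g ∈ (S \ T).powerset, (c1 * cg g) *
        sumC (K := K) P (fun n => G (nS np g * nm n / Z) * J (r * (nS np g * nm n) / Z)) := by
    have hfin : ∀ g : Finset (PrI K), (Function.support fun I : NI K =>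
        if Cp P I.1 then (if idS g ∣ I.1 then G (nm I.1 / Z) * J (r * nm I.1 / Z) else 0)
          else 0).Finite := by
      intro g
      refine (Pool.Agent.H44.HH.fin_NI (K := K) (3 * Z)).subset fun I hI => ?_
      show nm I.1 ≤ 3 * Z
      by_contra h
      push Not at h
      refine hI ?_
      have h5 : 3 ≤ nm I.1 / Z := by
        rw [le_div_iff₀ hZ]
        exact h.le
      simp only [hG.high _ h5, zero_mul, ite_self]
    have hterm : ∀ I : NI K, (if Cp P I.1 then G (nm I.1 / Z) *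
        Ji G H (nS np T * nm I.1 / (nS np S * Z)) *
        ∏ p ∈ S, ((if idS T * I.1 ≤ p.1 then 1 else 0) + 1 - 1 / np p) else 0) =
        ∑ g ∈ (S \ T).powerset, (c1 * cg g) * (if Cp P I.1 then
          (if idS g ∣ I.1 then G (nm I.1 / Z) * J (r * nm I.1 / Z) else 0) else 0) := by
      intro I
      by_cases hC : Cp P I.1
      · simp only [if_pos hC]
        have hnI := Pool.Agent.H96.CV.nm_pos I.2
        have h5 : nS np T * nm I.1 / (nS np S * Z) = r * nm I.1 / Z := by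
          rw [hr]
          field_simp
        rw [loc S T I.1 hTm, h5, hJ _ (by positivity), ← hc1, hcg, Finset.mul_sum, Finset.mul_sum]
        refine Finset.sum_congr rfl fun g _ => ?_
        split_ifs
        · ring
        · ring
      · simp only [if_neg hC, mul_zero, Finset.sum_const_zero]
    unfold sumC
    rw [tsum_congr hterm]
    rw [Summable.tsum_finsetSum fun g _ => (summable_of_hasFiniteSupport (hfin g)).mul_left _]
    refine Finset.sum_congr rfl fun g hg => ?_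
    rw [tsum_mul_left]
    congr 1
    have hgS : g ⊆ S := (Finset.mem_powerset.1 hg).trans Finset.sdiff_subset
    have hgD : g ∈ DP K P (Q ^ θ) := by
      rw [Pool.Agent.H57.HH.mem_DP] at hS ⊢
      exact ⟨fun p hp => hS.1 p (hgS hp), (Pool.Agent.H44.HH.nS_mono hgS).trans hS.2⟩
    have hgC := (h3 K P (Q ^ θ) hy g hgD).2.1
    have h6 := sumC_idS P g hgC (fun x => G (x / Z) * J (r * x / Z))
    unfold sumC at h6
    exact h6
  have hmain : rk K P * Z * (∏ p ∈ S ∩ T, (2 - 1 / np p)) * I0 =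
      ∑ g ∈ (S \ T).powerset, (c1 * cg g) * (rk K P * (Z / nS np g) * I0) := by
    have h5 := dens (S \ T)
    have h6 : ∑ g ∈ (S \ T).powerset, (c1 * cg g) * (rk K P * (Z / nS np g) * I0) =
        c1 * rk K P * Z * I0 * ∑ g ∈ (S \ T).powerset, cg g * (nS np g)⁻¹ := by
      rw [Finset.mul_sum]
      refine Finset.sum_congr rfl fun g _ => ?_
      rw [div_eq_mul_inv]
      ring
    rw [h6, hcg, h5, ← hc1]
    ring
  rw [hsum, hmain, ← Finset.sum_sub_distrib]
  refine (Finset.abs_sum_le_sum_abs _ _).trans ?_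
  have hinv : ∀ p : PrI K, 0 ≤ 1 / np p ∧ 1 / np p ≤ 1 := fun p => by
    have := Pool.Agent.H96.CV.two_le_np p
    have h5 := Pool.Agent.H96.CV.np_pos p
    refine ⟨by positivity, ?_⟩
    rw [div_le_one h5]
    linarith
  have hc1b : 0 ≤ c1 ∧ c1 ≤ 2 ^ S.card := by
    constructor
    · rw [hc1]
      refine Finset.prod_nonneg fun p _ => ?_
      have := hinv p
      linarith [this.2]
    · rw [hc1]
      calc ∏ p ∈ S ∩ T, (2 - 1 / np p) ≤ ∏ p ∈ S ∩ T, (2 : ℝ) :=
            Finset.prod_le_prod (fun p _ => by linarith [(hinv p).2])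
              fun p _ => by linarith [(hinv p).1]
        _ = 2 ^ (S ∩ T).card := by rw [Finset.prod_const]
        _ ≤ 2 ^ S.card := by
            refine pow_le_pow_right₀ (by norm_num) (Finset.card_le_card Finset.inter_subset_left)
  have hcgb : ∀ g, 0 ≤ cg g ∧ cg g ≤ 1 := by
    intro g
    rw [hcg]
    constructor
    · exact Finset.prod_nonneg fun p _ => by linarith [(hinv p).2]
    · exact Finset.prod_le_one (fun p _ => by linarith [(hinv p).2])
        fun p _ => by linarith [(hinv p).1]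
  have h2S : (2 : ℝ) ^ S.card ≤ D * Q ^ (1 / 2 : ℝ) := by
    have h5 := hD (idS S) hSne
    rw [hpfS, hnmS] at h5
    refine h5.trans ?_
    have h6 : nS np S ≤ Q := by
      refine hSy.trans ?_
      calc Q ^ θ ≤ Q ^ (1 : ℝ) := Real.rpow_le_rpow_of_exponent_le hQ (by linarith)
        _ = Q := Real.rpow_one Q
    gcongr
  have hQ4 : 0 < Q ^ (-4 : ℝ) := Real.rpow_pos_of_pos hQ0 _
  have hQh : 0 < Q ^ (1 / 2 : ℝ) := Real.rpow_pos_of_pos hQ0 _
  calc ∑ g ∈ (S \ T).powerset, |c1 * cg g *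
        sumC (K := K) P (fun n => G (nS np g * nm n / Z) * J (r * (nS np g * nm n) / Z)) -
        c1 * cg g * (rk K P * (Z / nS np g) * I0)|
      ≤ ∑ g ∈ (S \ T).powerset, 2 ^ S.card * (C0 * (M1 + M2) * Q ^ (-4 : ℝ)) := by
        refine Finset.sum_le_sum fun g hg => ?_
        rw [← mul_sub, abs_mul]
        refine mul_le_mul ?_ (key g hg) (abs_nonneg _) (by positivity)
        rw [abs_of_nonneg (mul_nonneg hc1b.1 (hcgb g).1)]
        calc c1 * cg g ≤ 2 ^ S.card * 1 :=
              mul_le_mul hc1b.2 (hcgb g).2 (hcgb g).1 (by positivity)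
          _ = 2 ^ S.card := mul_one _
    _ = 2 ^ (S \ T).card * (2 ^ S.card * (C0 * (M1 + M2) * Q ^ (-4 : ℝ))) := by
        rw [Finset.sum_const, Finset.card_powerset, nsmul_eq_mul]
        push_cast
        ring
    _ ≤ (D * Q ^ (1 / 2 : ℝ)) * ((D * Q ^ (1 / 2 : ℝ)) * (C0 * (M1 + M2) * Q ^ (-4 : ℝ))) := by
        have h5 : (2 : ℝ) ^ (S \ T).card ≤ D * Q ^ (1 / 2 : ℝ) :=
          (pow_le_pow_right₀ (by norm_num) (Finset.card_le_card Finset.sdiff_subset)).trans h2S
        gcongr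
    _ = D ^ 2 * (C0 * (M1 + M2)) * (Q ^ (1 / 2 : ℝ) * Q ^ (1 / 2 : ℝ) * Q ^ (-4 : ℝ)) := by ring
    _ = D ^ 2 * (C0 * (M1 + M2)) * Q ^ (-3 : ℝ) := by
        rw [← Real.rpow_add hQ0, ← Real.rpow_add hQ0]
        norm_num

end Pool.Agent.H51.HH
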