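import Pool.Agent.H33.HH.TD
import Pool.Agent.H37.HH.NPR

/-!
# Row CHB of hha_modules: sums of the primitive characters
-/

set_option autoImplicit false

open NumberField Complex Filter Topology MeasureTheory
open scoped ContDiff nonZeroDivisors

namespace Pool.Agent.H51.HH

open Pool.Agent.H33.HH Pool.Agent.H28.RC Pool.Agent.H37.CV
open Pool.Agent.H37.HH (qu_inj le_qu idS_dvd_of)

open scoped Classical in
theorem pf_CHB (h1 : T_IEX) (h2 : T_RLN) (h3 : T_ORH) (h4 : T_KAP) (h5 : T_UCW) (h6 : T_PHN)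
    (h7 : T_NRM) : T_CHB := by
  intro K _ _ _
  have : IsTotallyComplex K := (h7 K).1
  have hwu : 0 < wu K := (h7 K).2.1
  have hhc : 0 ≤ hc K := by unfold hc; positivity
  refine ⟨hc K, hhc, ?_⟩
  intro m n hm hmt hn
  obtain ⟨D, hD⟩ : ∃ D : Set (Ideal (𝓞 K)), D = {d : Ideal (𝓞 K) | m ≤ d ∧
    ∃ ν : 𝓞 K, Ideal.span {ν} = n ∧ ν - 1 ∈ d} := ⟨_, rfl⟩
  rw [← hD]
  have hDf : D.Finite := by
    refine (Ideal.finite_setOfPred_absNorm_le (S := 𝓞 K) (Ideal.absNorm m)).subset ?_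
    intro d hd
    rw [hD] at hd
    have h8 : Ideal.absNorm m ≠ 0 := fun h => hm (Ideal.absNorm_eq_zero_iff.1 h)
    exact Nat.le_of_dvd (Nat.pos_of_ne_zero h8) (Ideal.absNorm_dvd_absNorm_of_le hd.1)
  rw [finsum_mem_eq_finite_toFinset_sum _ hDf]
  have hnm : ∀ d : Ideal (𝓞 K), 0 ≤ nm d := fun d => Nat.cast_nonneg _
  by_cases hco : n ⊔ m = ⊤
  swap
  · have h8 : ∑ᶠ χ ∈ Pr K m, χ.ψ n = 0 := by
      refine finsum_mem_eq_zero_of_forall_eq_zero fun χ hχ => ?_
      have h9 : χ.f = m := hχ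
      exact χ.eq_zero n (by rw [h9]; exact hco)
    rw [h8, norm_zero]
    exact mul_nonneg hhc (Finset.sum_nonneg fun d _ => hnm d)
  rw [(h1 K m hm).2.1 hmt (fun ψ => ψ n)]
  refine (norm_sum_le _ _).trans ?_
  have key : ∀ S ∈ (pf m).powerset, ‖(-1 : ℂ) ^ S.card * ∑ᶠ ψ ∈ Ch m (qu m S), ψ n‖ ≤
      if qu m S ∈ D then hc K * nm (qu m S) else 0 := by
    intro S hS
    have hmd : m ≤ qu m S := le_qu (idS_dvd_of hm (Finset.mem_powerset.1 hS))
    obtain ⟨d, hd⟩ : ∃ d, d = qu m S := ⟨_, rfl⟩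
    rw [← hd] at hmd ⊢
    have hd0 : d ≠ ⊥ := by
      rintro rfl
      exact hm (le_bot_iff.1 hmd)
    rw [norm_mul, norm_pow, norm_neg, norm_one, one_pow, one_mul]
    have e1 : ∑ᶠ ψ ∈ Ch m d, ψ n = ((hc K * ph d / wu K * kap d n ⊤ : ℝ) : ℂ) := by
      rw [← (h3 K m d hm hmd).2 n ⊤ hn top_ne_bot hco (top_sup_eq m)]
      refine finsum_mem_congr rfl fun ψ hψ => ?_
      rw [hψ.1.one, map_one, mul_one]
    rw [e1, Complex.norm_real, Real.norm_eq_abs]
    obtain ⟨h8, h9⟩ := h4 K m d n ⊤ hm hmd hn top_ne_bot hco (top_sup_eq m)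
    obtain ⟨-, h10, h11⟩ := (h6 K).1 d hd0
    obtain ⟨h12, h13, h14, -⟩ := h5 K d
    by_cases hR : Rl m d n ⊤
    · obtain ⟨ν, hν1, hν2⟩ := h2 K m d n hm hmd hn hR
      have hdD : d ∈ D := by
        rw [hD]
        exact ⟨hmd, ν, hν1, hν2⟩
      rw [if_pos hdD, h8 hR]
      have h15 : (1 : ℝ) ≤ uc d := by exact_mod_cast h12
      have h16 : (wn d : ℝ) ≤ wu K := by
        rw [← h13]
        exact le_mul_of_one_le_left (Nat.cast_nonneg _) h15
      rw [abs_of_nonneg (by positivity)]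
      calc hc K * ph d / wu K * (wn d : ℝ) ≤ hc K * ph d / wu K * wu K := by gcongr
        _ = hc K * ph d := by field_simp
        _ ≤ hc K * nm d := by gcongr
    · rw [h9 hR, Nat.cast_zero, mul_zero, abs_zero]
      split_ifs
      · exact mul_nonneg hhc (hnm d)
      · exact le_rfl
  have hinj : Set.InjOn (qu m) ((pf m).powerset : Set (Finset (PrI K))) := by
    intro S hS T hT h
    rw [Finset.mem_coe, Finset.mem_powerset] at hS hT
    exact qu_inj hm hS hT h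
  calc ∑ S ∈ (pf m).powerset, ‖(-1 : ℂ) ^ S.card * ∑ᶠ ψ ∈ Ch m (qu m S), ψ n‖
      ≤ ∑ S ∈ (pf m).powerset, (if qu m S ∈ D then hc K * nm (qu m S) else 0) :=
        Finset.sum_le_sum key
    _ = ∑ d ∈ (pf m).powerset.image (qu m), (if d ∈ D then hc K * nm d else 0) := by
        rw [Finset.sum_image hinj]
    _ = ∑ d ∈ ((pf m).powerset.image (qu m)).filter (fun d => d ∈ D), hc K * nm d := by
        rw [Finset.sum_filter]
    _ ≤ ∑ d ∈ hDf.toFinset, hc K * nm d := by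
        refine Finset.sum_le_sum_of_subset_of_nonneg ?_ fun d _ _ => mul_nonneg hhc (hnm d)
        intro d hd
        rw [Set.Finite.mem_toFinset]
        exact (Finset.mem_filter.1 hd).2
    _ = hc K * ∑ d ∈ hDf.toFinset, nm d := by rw [Finset.mul_sum]

end Pool.Agent.H51.HH
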