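import Pool.Agent.H33.HH.TD

/-!
# Row IV2 of hha_modules: numbers which are almost squarefull
-/

set_option autoImplicit false

namespace Pool.Agent.H51.HH

open Pool.Agent.H33.HH

/-- squarefull numbers are of the form `c ^ 2 * s ^ 3` -/
theorem sqf_dec (m : ℕ) (hm : 1 ≤ m) (h : ∀ p : ℕ, p.Prime → p ∣ m → p ^ 2 ∣ m) :
    ∃ c s : ℕ, 1 ≤ c ∧ 1 ≤ s ∧ m = c ^ 2 * s ^ 3 := by
  obtain ⟨s, b, hb, hs⟩ := Nat.sq_mul_squarefree m
  have hsb : s ∣ b := by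
    rw [← Nat.prod_primeFactors_of_squarefree hs]
    refine Finset.prod_primes_dvd b (fun p hp => (Nat.prime_of_mem_primeFactors hp).prime)
      fun p hp => ?_
    have hpp := Nat.prime_of_mem_primeFactors hp
    have hps := Nat.dvd_of_mem_primeFactors hp
    by_contra hpb
    have h1 : p ^ 2 ∣ b ^ 2 * s := by
      rw [hb]
      refine h p hpp ?_
      rw [← hb]
      exact Dvd.dvd.mul_left hps _
    have h2 : Nat.Coprime (p ^ 2) (b ^ 2) :=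
      Nat.Coprime.pow 2 2 ((Nat.Prime.coprime_iff_not_dvd hpp).2 hpb)
    have h3 : p ^ 2 ∣ s := h2.dvd_of_dvd_mul_left h1
    have h4 := hs p (by rw [← sq]; exact h3)
    exact hpp.one_lt.ne' (Nat.isUnit_iff.1 h4)
  obtain ⟨c, rfl⟩ := hsb
  have hs0 : s ≠ 0 := by
    rintro rfl
    simp at hb
    omega
  have hc0 : c ≠ 0 := by
    rintro rfl
    simp at hb
    omega
  refine ⟨c, s, Nat.one_le_iff_ne_zero.2 hc0, Nat.one_le_iff_ne_zero.2 hs0, ?_⟩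
  rw [← hb]
  ring

theorem pf_IV2 : T_IV2 := by
  intro D hD
  have hsum : Summable fun s : ℕ => ((s : ℝ) ^ (3 / 2 : ℝ))⁻¹ :=
    Real.summable_nat_rpow_inv.2 (by norm_num)
  obtain ⟨Z, hZ⟩ : ∃ Z : ℝ, Z = ∑' s : ℕ, ((s : ℝ) ^ (3 / 2 : ℝ))⁻¹ := ⟨_, rfl⟩
  have hZ0 : 0 ≤ Z := by
    rw [hZ]
    exact tsum_nonneg fun s => by positivity
  refine ⟨D * Z, by positivity, ?_⟩
  intro x hx
  obtain ⟨A, hA⟩ : ∃ A : Set ℕ, A = {n : ℕ | 1 ≤ n ∧ (n : ℝ) ≤ x ∧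
    ∀ p : ℕ, p.Prime → ¬ p ∣ D → p ∣ n → p ^ 2 ∣ n} := ⟨_, rfl⟩
  rw [← hA]
  -- the decomposition
  have hdec : ∀ n : ℕ, ∃ c s : ℕ, n ∈ A → 1 ≤ c ∧ 1 ≤ s ∧ D ^ 2 * n = c ^ 2 * s ^ 3 := by
    intro n
    by_cases hn : n ∈ A
    · rw [hA] at hn
      obtain ⟨hn1, -, hn3⟩ := hn
      have hm : 1 ≤ D ^ 2 * n := Nat.mul_pos (pow_pos hD 2) hn1
      have h : ∀ p : ℕ, p.Prime → p ∣ D ^ 2 * n → p ^ 2 ∣ D ^ 2 * n := by
        intro p hp hpd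
        by_cases hpD : p ∣ D
        · exact Dvd.dvd.mul_right (pow_dvd_pow_of_dvd hpD 2) n
        · rcases (Nat.Prime.dvd_mul hp).1 hpd with h1 | h1
          · exact absurd (hp.dvd_of_dvd_pow h1) hpD
          · exact Dvd.dvd.mul_left (hn3 p hp hpD h1) _
      obtain ⟨c, s, h1, h2, h3⟩ := sqf_dec _ hm h
      exact ⟨c, s, fun _ => ⟨h1, h2, h3⟩⟩
    · exact ⟨0, 0, fun h => absurd h hn⟩
  choose c s hcs using hdec
  obtain ⟨y, hy⟩ : ∃ y : ℝ, y = (D : ℝ) ^ 2 * x := ⟨_, rfl⟩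
  have hD' : (1 : ℝ) ≤ D := by exact_mod_cast hD
  have hy1 : 1 ≤ y := by
    rw [hy]
    nlinarith [mul_le_mul hD' hD' zero_le_one (by linarith : (0 : ℝ) ≤ D)]
  have hy0 : 0 ≤ y := by linarith
  obtain ⟨B, hB⟩ : ∃ B : Finset (Σ _ : ℕ, ℕ), B = (Finset.Icc 1 ⌊y⌋₊).sigma
    fun s => Finset.Icc 1 ⌊Real.sqrt (y / (s : ℝ) ^ 3)⌋₊ := ⟨_, rfl⟩
  have hmap : ∀ n ∈ A, (⟨s n, c n⟩ : Σ _ : ℕ, ℕ) ∈ B := by
    intro n hn
    obtain ⟨h1, h2, h3⟩ := hcs n hn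
    have hn' := hn
    rw [hA] at hn'
    have hnx : (n : ℝ) ≤ x := hn'.2.1
    have h4 : ((c n : ℝ)) ^ 2 * (s n : ℝ) ^ 3 ≤ y := by
      have h5 : ((D : ℝ)) ^ 2 * n = (c n : ℝ) ^ 2 * (s n : ℝ) ^ 3 := by exact_mod_cast h3
      rw [← h5, hy]
      gcongr
    have h1' : (1 : ℝ) ≤ c n := by exact_mod_cast h1
    have h2' : (1 : ℝ) ≤ s n := by exact_mod_cast h2
    have hs3 : (0 : ℝ) < (s n : ℝ) ^ 3 := by positivity
    have hc2 : (1 : ℝ) ≤ (c n : ℝ) ^ 2 := one_le_pow₀ h1'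
    rw [hB, Finset.mem_sigma, Finset.mem_Icc, Finset.mem_Icc]
    refine ⟨⟨h2, Nat.le_floor ?_⟩, h1, Nat.le_floor ?_⟩
    · show (s n : ℝ) ≤ y
      have h6 : (s n : ℝ) ≤ (s n : ℝ) ^ 3 := le_self_pow₀ h2' (by norm_num)
      nlinarith
    · show (c n : ℝ) ≤ Real.sqrt (y / (s n : ℝ) ^ 3)
      refine Real.le_sqrt_of_sq_le ?_
      rw [le_div_iff₀ hs3]
      exact h4
  have hinj : Set.InjOn (fun n => (⟨s n, c n⟩ : Σ _ : ℕ, ℕ)) A := by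
    intro n hn n' hn' h
    have h1 : s n = s n' := congrArg Sigma.fst h
    have h2 : c n = c n' := congrArg (fun z : Σ _ : ℕ, ℕ => z.2) h
    have h3 := (hcs n hn).2.2
    have h4 := (hcs n' hn').2.2
    rw [h1, h2, ← h4] at h3
    exact Nat.eq_of_mul_eq_mul_left (pow_pos hD 2) h3
  have hcard : A.ncard ≤ B.card := by
    rw [← Set.ncard_coe_finset]
    exact Set.ncard_le_ncard_of_injOn _ hmap hinj (Finset.finite_toSet B)
  have hBc : (B.card : ℝ) ≤ Real.sqrt y * Z := by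
    rw [hB, Finset.card_sigma]
    push_cast
    calc ∑ s ∈ Finset.Icc 1 ⌊y⌋₊, ((Finset.Icc 1 ⌊Real.sqrt (y / (s : ℝ) ^ 3)⌋₊).card : ℝ)
        ≤ ∑ s ∈ Finset.Icc 1 ⌊y⌋₊, Real.sqrt y * ((s : ℝ) ^ (3 / 2 : ℝ))⁻¹ := by
          refine Finset.sum_le_sum fun s _ => ?_
          rw [Nat.card_Icc, Nat.add_sub_cancel]
          refine (Nat.floor_le (Real.sqrt_nonneg _)).trans ?_
          rw [Real.sqrt_div hy0, div_eq_mul_inv]
          have h5 : Real.sqrt ((s : ℝ) ^ 3) = (s : ℝ) ^ (3 / 2 : ℝ) := by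
            rw [Real.sqrt_eq_rpow, ← Real.rpow_natCast, ← Real.rpow_mul (Nat.cast_nonneg s)]
            norm_num
          rw [h5]
      _ = Real.sqrt y * ∑ s ∈ Finset.Icc 1 ⌊y⌋₊, ((s : ℝ) ^ (3 / 2 : ℝ))⁻¹ := by
          rw [Finset.mul_sum]
      _ ≤ Real.sqrt y * Z := by
          rw [hZ]
          exact mul_le_mul_of_nonneg_left (hsum.sum_le_tsum _ fun s _ => by positivity)
            (Real.sqrt_nonneg _)
  have hx58 : Real.sqrt x ≤ x ^ (5 / 8 : ℝ) := by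
    rw [Real.sqrt_eq_rpow]
    exact Real.rpow_le_rpow_of_exponent_le hx (by norm_num)
  calc (A.ncard : ℝ) ≤ B.card := by exact_mod_cast hcard
    _ ≤ Real.sqrt y * Z := hBc
    _ = D * Z * Real.sqrt x := by
        rw [hy, Real.sqrt_mul (by positivity), Real.sqrt_sq (by positivity)]
        ring
    _ ≤ D * Z * x ^ (5 / 8 : ℝ) := mul_le_mul_of_nonneg_left hx58 (by positivity)

end Pool.Agent.H51.HH
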